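import Mathlib

/-!
# Tverberg-type theorem for linear images of polytopes: definitions

Namespace `Pool.Agent.TP`. All types are in `Type`. Decidability is classical everywhere.
-/

namespace Pool.Agent.TP

open Finset

/-! ## graded incidence functions over `ZMod 2` (cell complexes) -/

/-- cells `X`, size `gr`, and `d x y` = coefficient of the cell `y` in the boundary of `x` -/
structure Inc (X : Type) where
  gr : X → ℕ
  d : X → X → ZMod 2
  gr_d : ∀ x y, d x y ≠ 0 → gr y + 1 = gr x

namespace Inc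

variable {X Y : Type}

/-- boundary of the chain `c` on the set of cells `s` -/
def bd (A : Inc X) (s : Finset X) (c : X → ZMod 2) (y : X) : ZMod 2 := ∑ x ∈ s, c x * A.d x y

/-- every cycle of size `n` on `s` is a boundary -/
def Exact (A : Inc X) (s : Finset X) (n : ℕ) : Prop :=
  ∀ c : X → ZMod 2, (∀ x ∈ s, c x ≠ 0 → A.gr x = n) → (∀ y ∈ s, A.bd s c y = 0) →
    ∃ b : X → ZMod 2, (∀ x ∈ s, b x ≠ 0 → A.gr x = n + 1) ∧ ∀ y ∈ s, A.bd s b y = c y

/-- the boundary squares to zero on `s` -/
def IsCx (A : Inc X) (s : Finset X) : Prop := ∀ x ∈ s, ∀ z ∈ s, ∑ y ∈ s, A.d x y * A.d y z = 0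

open scoped Classical in
/-- product (tensor product of chain complexes) -/
noncomputable def prod (A : Inc X) (B : Inc Y) : Inc (X × Y) where
  gr x := A.gr x.1 + B.gr x.2
  d x y := (if x.2 = y.2 then A.d x.1 y.1 else 0) + (if x.1 = y.1 then B.d x.2 y.2 else 0)
  gr_d := by
    intro x y h
    by_cases h1 : x.2 = y.2
    · by_cases h2 : x.1 = y.1
      · have ha : A.d x.1 y.1 = 0 := by
          by_contra h3
          have := A.gr_d _ _ h3
          rw [h2] at this
          omega
        have hb : B.d x.2 y.2 = 0 := by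
          by_contra h3
          have := B.gr_d _ _ h3
          rw [h1] at this
          omega
        simp [ha, hb] at h
      · rw [if_pos h1, if_neg h2, add_zero] at h
        have := A.gr_d _ _ h
        rw [h1]; omega
    · rw [if_neg h1, zero_add] at h
      by_cases h2 : x.1 = y.1
      · rw [if_pos h2] at h
        have := B.gr_d _ _ h
        rw [h2]; omega
      · rw [if_neg h2] at h
        exact absurd rfl h

open scoped Classical in
/-- power -/
noncomputable def pi (A : Inc X) (r : ℕ) : Inc (Fin r → X) where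
  gr x := ∑ i, A.gr (x i)
  d x y := ∑ i, if (∀ j, j ≠ i → x j = y j) then A.d (x i) (y i) else 0
  gr_d := by
    intro x y h
    obtain ⟨i, -, hi⟩ := Finset.exists_ne_zero_of_sum_ne_zero h
    by_cases h1 : ∀ j, j ≠ i → x j = y j
    · rw [if_pos h1] at hi
      have h2 := A.gr_d _ _ hi
      rw [← Finset.add_sum_erase _ _ (Finset.mem_univ i),
        ← Finset.add_sum_erase _ (fun i => A.gr (x i)) (Finset.mem_univ i)]
      have h3 : ∑ j ∈ univ.erase i, A.gr (y j) = ∑ j ∈ univ.erase i, A.gr (x j) :=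
        Finset.sum_congr rfl fun j hj => by rw [h1 j (Finset.ne_of_mem_erase hj)]
      rw [h3]; omega
    · rw [if_neg h1] at hi
      exact absurd rfl hi

open scoped Classical in
/-- simplices on the vertex set `α` (all finite subsets, `∅` included), size = cardinality -/
noncomputable def simp (α : Type) : Inc (Finset α) where
  gr := Finset.card
  d s t := if t ⊆ s ∧ t.card + 1 = s.card then 1 else 0
  gr_d := by
    intro s t h
    by_contra h1
    exact h (if_neg fun h2 => h1 h2.2)

end Inc

/-! ## faces of a point configuration (cone over a polytope) -/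

section faces

variable {ι E : Type} [AddCommGroup E] [Module ℝ E]

/-- `F` is the zero set of a linear functional which is nonnegative on the configuration -/
def IsFace (v : ι → E) (F : Finset ι) : Prop :=
  ∃ ψ : Module.Dual ℝ E, (∀ i, 0 ≤ ψ (v i)) ∧ ∀ i, i ∈ F ↔ ψ (v i) = 0

/-- rank of a set of elements (dimension of the linear span) -/
noncomputable def rk (v : ι → E) (S : Set ι) : ℕ := Module.finrank ℝ (Submodule.span ℝ (v '' S))

variable [Fintype ι]

open scoped Classical in
/-- all faces -/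
noncomputable def faces (v : ι → E) : Finset (Finset ι) := univ.filter fun F => IsFace v F

open scoped Classical in
/-- the complex of the faces: size = rank -/
noncomputable def fInc (v : ι → E) : Inc (Finset ι) where
  gr F := rk v (F : Set ι)
  d F G := if G ⊆ F ∧ rk v (G : Set ι) + 1 = rk v (F : Set ι) then 1 else 0
  gr_d := by
    intro s t h
    by_contra h1
    exact h (if_neg fun h2 => h1 h2.2)

open scoped Classical in
/-- the smallest face containing `S` -/
noncomputable def cl (v : ι → E) (S : Set ι) : Finset ι :=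
  univ.filter fun j => ∀ F : Finset ι, IsFace v F → S ⊆ (F : Set ι) → j ∈ F

open scoped Classical in
/-- the faces between `F₀` and `Z` which avoid `K` outside `F₀` -/
noncomputable def Fam (v : ι → E) (F₀ Z : Finset ι) (K : Set ι) : Finset (Finset ι) :=
  univ.filter fun G => IsFace v G ∧ F₀ ⊆ G ∧ G ⊆ Z ∧ ∀ j ∈ G, j ∈ K → j ∈ F₀

open scoped Classical in
/-- tuples of pairwise disjoint faces `F i ⊆ Z i` avoiding `K` -/
noncomputable def Tup (v : ι → E) {s : ℕ} (Z : Fin s → Finset ι) (K : Set ι) :
    Finset (Fin s → Finset ι) :=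
  univ.filter fun F => (∀ i, IsFace v (F i) ∧ F i ⊆ Z i ∧ ∀ j ∈ F i, j ∉ K) ∧
    ∀ i j, i ≠ j → Disjoint (F i) (F j)

/-- the union of a tuple -/
def un {s : ℕ} (Z : Fin s → Finset ι) : Set ι := {j | ∃ i, j ∈ Z i}

/-- `θ` is a nonnegative combination of the vectors with labels in `S` -/
def Pos (v : ι → E) (S : Set ι) (θ : E) : Prop :=
  ∃ β : ι → ℝ, (∀ x, 0 ≤ β x) ∧ (∀ x, β x ≠ 0 → x ∈ S) ∧ θ = ∑ x, β x • v x

/-- there is no nontrivial nonnegative relation between the vectors with labels in `S` -/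
def Good (v : ι → E) (S : Set ι) : Prop :=
  ∀ β : ι → ℝ, (∀ x, 0 ≤ β x) → (∀ x, β x ≠ 0 → x ∈ S) → ∑ x, β x • v x = 0 → ∀ x, β x = 0

/-- `θ` lies in no proper subspace spanned by some of the vectors -/
def Gen (v : ι → E) (θ : E) : Prop :=
  ∀ S : Set ι, θ ∈ Submodule.span ℝ (v '' S) → Submodule.span ℝ (v '' S) = ⊤

end faces

/-! ## the data of the proof -/

/-- configuration `v` in `E` (cone over the polytope), linear maps `Φ i : E → W` with sum zero, and
a generic point `x₀` of the cone -/
structure Sark (ι E W : Type) [Fintype ι] [AddCommGroup E] [Module ℝ E] [FiniteDimensional ℝ E]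
    [NormedAddCommGroup W] [InnerProductSpace ℝ W] [FiniteDimensional ℝ W] (r : ℕ) where
  v : ι → E
  Φ : Fin r → (E →ₗ[ℝ] W)
  x₀ : E
  r_pos : 0 < r
  span_v : Submodule.span ℝ (Set.range v) = ⊤
  pointed : ∃ ψ : Module.Dual ℝ E, ∀ j, 0 < ψ (v j)
  sum_zero : ∀ x, ∑ i, Φ i x = 0
  span_Φ : Submodule.span ℝ (Set.range fun k : Fin r × ι => Φ k.1 (v k.2)) = ⊤
  dim_lt : Module.finrank ℝ W < Module.finrank ℝ E
  pos : Pos v Set.univ x₀
  gen : Gen v x₀

namespace Sark

variable {ι E W : Type} [Fintype ι] [AddCommGroup E] [Module ℝ E] [FiniteDimensional ℝ E]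
  [NormedAddCommGroup W] [InnerProductSpace ℝ W] [FiniteDimensional ℝ W] {r : ℕ}
  (D : Sark ι E W r)

open scoped RealInnerProductSpace

/-- the value at the label `k = (i, j)` of the functional `(u, ψ)` -/
noncomputable def val (u : W) (ψ : Module.Dual ℝ E) (k : Fin r × ι) : ℝ :=
  ψ (D.v k.2) - ⟪u, D.Φ k.1 (D.v k.2)⟫

/-- `(u, ψ)` is nonnegative with zero set exactly `Z` -/
def Wit (Z : Finset (Fin r × ι)) (u : W) (ψ : Module.Dual ℝ E) : Prop :=
  ∀ k, 0 ≤ D.val u ψ k ∧ (k ∈ Z ↔ D.val u ψ k = 0)

/-- the configuration of all labels in `W × E`; `IsFace D.c Z` iff there is a `Wit` (Basic) -/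
def c (k : Fin r × ι) : W × E := (-(D.Φ k.1 (D.v k.2)), D.v k.2)

open scoped Classical in
/-- faces `Z` of `D.c` such that `x₀` is a nonnegative combination of the `v j`, `(i, j) ∈ Z` -/
noncomputable def N : Finset (Finset (Fin r × ι)) :=
  univ.filter fun Z => IsFace D.c Z ∧ Pos (fun k : Fin r × ι => D.v k.2) (Z : Set (Fin r × ι)) D.x₀

open scoped Classical in
/-- chains of proper contact sets -/
noncomputable def CH : Finset (Finset (Finset (Fin r × ι))) :=
  univ.filter fun z => (∀ Z ∈ z, Z ∈ D.N ∧ Z ≠ univ) ∧ ∀ Z ∈ z, ∀ Z' ∈ z, Z ⊆ Z' ∨ Z' ⊆ Z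

open scoped Classical in
/-- the cells: a chain of contact sets and a tuple of disjoint faces contained in all of them -/
noncomputable def sT : Finset (Finset (Finset (Fin r × ι)) × (Fin r → Finset ι)) :=
  univ.filter fun x => x.1 ∈ D.CH ∧ x.2 ∈ Tup D.v (fun _ : Fin r => univ) ∅ ∧
    ∀ Z ∈ x.1, ∀ i, ∀ j ∈ x.2 i, (i, j) ∈ Z

/-- the incidence function on the cells -/
noncomputable def TInc : Inc (Finset (Finset (Fin r × ι)) × (Fin r → Finset ι)) :=
  (Inc.simp (Finset (Fin r × ι))).prod ((fInc D.v).pi r)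

open scoped Classical in
/-- the sum of the complete flags -/
noncomputable def T (_D : Sark ι E W r)
    (x : Finset (Finset (Fin r × ι)) × (Fin r → Finset ι)) : ZMod 2 :=
  if x.1.card = Module.finrank ℝ W ∧ ∀ i, x.2 i = ∅ then 1 else 0

open scoped Classical in
/-- a chosen functional `(u, ψ)` with zero set `Z`, for a face `Z` of `D.c` -/
noncomputable def wit (Z : Finset (Fin r × ι)) : W × Module.Dual ℝ E :=
  if h : ∃ p : W × Module.Dual ℝ E, D.Wit Z p.1 p.2 then h.choose else 0

/-- the vectors in `W` attached to the labels: contact sets and pairs `(i, j)` -/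
noncomputable def vec : Finset (Fin r × ι) ⊕ (Fin r × ι) → W
  | Sum.inl Z => (D.wit Z).1
  | Sum.inr k => D.Φ k.1 (D.v k.2)

/-- labels of the vertices of the cell `x` -/
def supp (_D : Sark ι E W r) (x : Finset (Finset (Fin r × ι)) × (Fin r → Finset ι)) :
    Set (Finset (Fin r × ι) ⊕ (Fin r × ι)) :=
  {l | (∃ Z ∈ x.1, l = Sum.inl Z) ∨ ∃ i, ∃ j ∈ x.2 i, l = Sum.inr (i, j)}

/-- no Tverberg tuple of disjoint faces -/
def NoSol : Prop := ∀ F ∈ Tup D.v (fun _ : Fin r => univ) ∅,
  Good (fun k : Fin r × ι => D.Φ k.1 (D.v k.2)) {k | k.2 ∈ F k.1}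

end Sark

end Pool.Agent.TP
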