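import Mathlib
import Pool.Agent.Work.MP_c51d14_co.Defs

/-!
# Statements of the blocks (namespace `Pool.Agent.TP`), see BLUEPRINT.md for the proofs

Block X: file `Pool/Agent/Work/MP_c51d14_co_<seat>/X.lean` with `theorem stmt_X : Stmt_X`
(other `Stmt_Y` may be hypotheses).
-/

namespace Pool.Agent.TP

open Finset

/-! ### ALG: incidence functions -/

section ALG

open scoped Classical in
/-- FILT: a filtration with exact pieces -/
def Stmt_Filt : Prop := ∀ (X α : Type) [PartialOrder α] (A : Inc X) (s : Finset X) (f : X → α)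
  (n : ℕ), A.IsCx s → (∀ x ∈ s, ∀ y ∈ s, A.d x y ≠ 0 → f y ≤ f x) →
  (∀ a, A.Exact (s.filter fun x => f x = a) n) → A.Exact s n

open scoped Classical in
/-- TWO: total exact in size `n`, quotient exact in size `n + 1`, hence the part closed under the
boundary is exact in size `n` -/
def Stmt_Two : Prop := ∀ (X : Type) (A : Inc X) (s : Finset X) (p : X → Prop) (n : ℕ),
  A.IsCx s → (∀ x ∈ s, ∀ y ∈ s, p x → A.d x y ≠ 0 → p y) →
  A.Exact s n → A.Exact (s.filter fun x => ¬ p x) (n + 1) → A.Exact (s.filter p) n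

/-- TENSOR -/
def Stmt_Tensor : Prop := ∀ (X Y : Type) (A : Inc X) (B : Inc Y) (s : Finset X) (t : Finset Y)
  (a b n : ℕ), A.IsCx s → B.IsCx t → (∀ p < a, A.Exact s p) → (∀ q < b, B.Exact t q) →
  n < a + b → (A.prod B).Exact (s ×ˢ t) n

/-- TRANSP: transport of exactness along a bijection, with a shift of the size -/
def Stmt_Transp : Prop := ∀ (X Y : Type) (A : Inc X) (B : Inc Y) (s : Finset X) (t : Finset Y)
  (φ : X → Y) (k n : ℕ), Set.BijOn φ (s : Set X) (t : Set Y) →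
  (∀ x ∈ s, A.gr x = B.gr (φ x) + k) →
  (∀ x ∈ s, ∀ y ∈ s, A.d x y = B.d (φ x) (φ y)) →
  (∀ m, m + k = n → B.Exact t m) → A.Exact s n

/-- PISUCC: the power with exponent `s + 1` is a product -/
def Stmt_PiSucc : Prop := ∀ (X : Type) (A : Inc X) (s : ℕ) (t : Finset (Fin s → X)) (u : Finset X)
  (w : Finset (Fin (s + 1) → X)) (n : ℕ),
  (∀ x : Fin (s + 1) → X, x ∈ w ↔ (fun i : Fin s => x i.castSucc) ∈ t ∧ x (Fin.last s) ∈ u) →
  ((A.pi s).prod A).Exact (t ×ˢ u) n → (A.pi (s + 1)).Exact w n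

/-- CXCONV: convex parts of a complex are complexes -/
def Stmt_CxConv : Prop := ∀ (X : Type) (A : Inc X) (s t : Finset X), A.IsCx s → t ⊆ s →
  (∀ x ∈ t, ∀ y ∈ s, ∀ z ∈ t, A.d x y ≠ 0 → A.d y z ≠ 0 → y ∈ t) → A.IsCx t

/-- CXPROD -/
def Stmt_CxProd : Prop := ∀ (X Y : Type) (A : Inc X) (B : Inc Y) (s : Finset X) (t : Finset Y),
  A.IsCx s → B.IsCx t → (A.prod B).IsCx (s ×ˢ t)

/-- CXPI -/
def Stmt_CxPi : Prop := ∀ (X : Type) (A : Inc X) (r : ℕ) (s : Finset X),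
  A.IsCx s → (A.pi r).IsCx (Fintype.piFinset fun _ : Fin r => s)

/-- CXSIMP -/
def Stmt_CxSimp : Prop := ∀ (α : Type) (s : Finset (Finset α)),
  (∀ S ∈ s, ∀ T : Finset α, T ⊆ S → T ∈ s) → (Inc.simp α).IsCx s

end ALG

/-! ### FACE: faces of configurations -/

section FACE

open scoped Classical in
/-- DIAMOND -/
def Stmt_Diamond : Prop := ∀ (ι E : Type) [Fintype ι] [AddCommGroup E] [Module ℝ E]
  [FiniteDimensional ℝ E] (v : ι → E) (F G : Finset ι), IsFace v F → IsFace v G → F ⊆ G →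
  rk v (G : Set ι) = rk v (F : Set ι) + 2 →
  Even (univ.filter fun H : Finset ι =>
    IsFace v H ∧ F ⊆ H ∧ H ⊆ G ∧ rk v (H : Set ι) = rk v (F : Set ι) + 1).card

/-- BETWEEN -/
def Stmt_Between : Prop := ∀ (ι E : Type) [Fintype ι] [AddCommGroup E] [Module ℝ E]
  [FiniteDimensional ℝ E] (v : ι → E) (F G : Finset ι), IsFace v F → IsFace v G → F ⊆ G →
  rk v (F : Set ι) < rk v (G : Set ι) →
  ∃ H : Finset ι, IsFace v H ∧ F ⊆ H ∧ H ⊆ G ∧ rk v (H : Set ι) = rk v (F : Set ι) + 1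

/-- CXFACE: families of faces convex for the inclusion are complexes (from DIAMOND) -/
def Stmt_CxFace : Prop := ∀ (ι E : Type) [Fintype ι] [AddCommGroup E] [Module ℝ E]
  [FiniteDimensional ℝ E] (v : ι → E) (s : Finset (Finset ι)), (∀ F ∈ s, IsFace v F) →
  (∀ F ∈ s, ∀ G ∈ s, ∀ H, IsFace v H → F ⊆ H → H ⊆ G → H ∈ s) → (fInc v).IsCx s

/-- CXTUP (from CXFACE, CXPI, CXCONV) -/
def Stmt_CxTup : Prop := ∀ (ι E : Type) [Fintype ι] [AddCommGroup E] [Module ℝ E]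
  [FiniteDimensional ℝ E] (v : ι → E) (s : ℕ) (Z : Fin s → Finset ι) (K : Set ι),
  ((fInc v).pi s).IsCx (Tup v Z K)

/-- INT: an interval of faces is exact in all sizes -/
def Stmt_Interval : Prop := ∀ (ι E : Type) [Fintype ι] [AddCommGroup E] [Module ℝ E]
  [FiniteDimensional ℝ E] (v : ι → E) (F₀ Z : Finset ι) (n : ℕ), IsFace v F₀ → IsFace v Z →
  F₀ ⊂ Z → (fInc v).Exact (Fam v F₀ Z ∅) n

/-- LB: the link version -/
def Stmt_LB : Prop := ∀ (ι E : Type) [Fintype ι] [AddCommGroup E] [Module ℝ E]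
  [FiniteDimensional ℝ E] (v : ι → E) (F₀ Z : Finset ι) (K : Set ι) (n : ℕ), IsFace v F₀ →
  IsFace v Z → F₀ ⊆ Z →
  n + 1 + rk v ((F₀ : Set ι) ∪ (K ∩ (Z : Set ι))) ≤ rk v (Z : Set ι) + rk v (F₀ : Set ι) →
  (fInc v).Exact (Fam v F₀ Z K) n

/-- LIN: the dimension inequality -/
def Stmt_Lin : Prop := ∀ (E : Type) [AddCommGroup E] [Module ℝ E] [FiniteDimensional ℝ E]
  (W Z KW KS Fs Sg N : Submodule ℝ E), KW ≤ W → KS ≤ Z → Fs ≤ Z → Sg ≤ Fs → Sg ≤ N → N ≤ W →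
  N ≤ Z →
  Module.finrank ℝ ↥(W ⊔ Z) + Module.finrank ℝ ↥(KW ⊔ Sg) + Module.finrank ℝ ↥(Fs ⊔ N ⊔ KS)
    ≤ Module.finrank ℝ W + Module.finrank ℝ Z + Module.finrank ℝ Fs
      + Module.finrank ℝ ↥(KW ⊔ KS)

/-- STAR: the main exactness statement -/
def Stmt_Star : Prop := ∀ (ι E : Type) [Fintype ι] [AddCommGroup E] [Module ℝ E]
  [FiniteDimensional ℝ E] (v : ι → E) (s : ℕ) (Z : Fin s → Finset ι) (K : Set ι) (n : ℕ),
  IsFace v ∅ → (∀ i, IsFace v (Z i)) →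
  n + 1 + rk v (K ∩ un Z) ≤ rk v (un Z) → ((fInc v).pi s).Exact (Tup v Z K) n

end FACE

/-! ### LP, genericity, parity -/

section LP

/-- LP: linear programming duality with a unique dual optimum -/
def Stmt_LP : Prop := ∀ (κ E : Type) [Fintype κ] [AddCommGroup E] [Module ℝ E]
  [FiniteDimensional ℝ E] (a : κ → E) (h : κ → ℝ) (x₀ : E), Pos a Set.univ x₀ → Gen a x₀ →
  (∃ ψ : Module.Dual ℝ E, ∀ k, 0 < ψ (a k)) →
  ∃! ψ : Module.Dual ℝ E, (∀ k, h k ≤ ψ (a k)) ∧ Pos a {k | ψ (a k) = h k} x₀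

/-- GEN: a generic point in the interior of the cone over a spanning family -/
def Stmt_Gen : Prop := ∀ (L κ W : Type) [Fintype L] [Fintype κ] [AddCommGroup W] [Module ℝ W]
  [FiniteDimensional ℝ W] (g : L → W) (b : κ → W), Submodule.span ℝ (Set.range b) = ⊤ →
  ∃ (θ : W) (β : κ → ℝ), (∀ k, 0 < β k) ∧ θ = ∑ k, β k • b k ∧ Gen g θ

open scoped Classical in
/-- PAR: parity of the number of facets of a simplex whose cone contains a generic point -/
def Stmt_Par : Prop := ∀ (L W : Type) [Fintype L] [AddCommGroup W] [Module ℝ W]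
  [FiniteDimensional ℝ W] (g : L → W) (θ : W) (S : Finset L), Gen g θ →
  S.card = Module.finrank ℝ W + 1 → Good g (S : Set L) →
  Even (S.filter fun x => Pos g ((S : Set L) \ {x}) θ).card

end LP

/-! ### the complex `sT` -/

section Main

open scoped Classical in
/-- P2 -/
def Stmt_P2 : Prop := ∀ (ι E W : Type) [Fintype ι] [AddCommGroup E] [Module ℝ E]
  [FiniteDimensional ℝ E] [NormedAddCommGroup W] [InnerProductSpace ℝ W] [FiniteDimensional ℝ W]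
  (r : ℕ) (D : Sark ι E W r) (Z' : Finset (Fin r × ι)), Z' ∈ D.N →
  rk D.c (Z' : Set (Fin r × ι)) = Module.finrank ℝ E + 1 →
  Even (D.N.filter fun Z => Z ⊆ Z' ∧ rk D.c (Z : Set (Fin r × ι)) = Module.finrank ℝ E).card

/-- TCYC: the sum of the complete flags is a cycle -/
def Stmt_TCyc : Prop := ∀ (ι E W : Type) [Fintype ι] [AddCommGroup E] [Module ℝ E]
  [FiniteDimensional ℝ E] [NormedAddCommGroup W] [InnerProductSpace ℝ W] [FiniteDimensional ℝ W]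
  (r : ℕ) (D : Sark ι E W r), ∀ y ∈ D.sT, D.TInc.bd D.sT D.T y = 0

/-- TCX -/
def Stmt_TCx : Prop := ∀ (ι E W : Type) [Fintype ι] [AddCommGroup E] [Module ℝ E]
  [FiniteDimensional ℝ E] [NormedAddCommGroup W] [InnerProductSpace ℝ W] [FiniteDimensional ℝ W]
  (r : ℕ) (D : Sark ι E W r), D.TInc.IsCx D.sT

/-- TEX: exactness of the complex -/
def Stmt_TExact : Prop := ∀ (ι E W : Type) [Fintype ι] [AddCommGroup E] [Module ℝ E]
  [FiniteDimensional ℝ E] [NormedAddCommGroup W] [InnerProductSpace ℝ W] [FiniteDimensional ℝ W]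
  (r : ℕ) (D : Sark ι E W r), D.TInc.Exact D.sT (Module.finrank ℝ W)

/-- GOOD -/
def Stmt_Good : Prop := ∀ (ι E W : Type) [Fintype ι] [AddCommGroup E] [Module ℝ E]
  [FiniteDimensional ℝ E] [NormedAddCommGroup W] [InnerProductSpace ℝ W] [FiniteDimensional ℝ W]
  (r : ℕ) (D : Sark ι E W r), D.NoSol → ∀ x ∈ D.sT, Good D.vec (D.supp x)

open scoped Classical in
/-- TRI: triangulation of a chain -/
def Stmt_Tri : Prop := ∀ (ι E W : Type) [Fintype ι] [AddCommGroup E] [Module ℝ E]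
  [FiniteDimensional ℝ E] [NormedAddCommGroup W] [InnerProductSpace ℝ W] [FiniteDimensional ℝ W]
  (r : ℕ) (D : Sark ι E W r)
  (b : Finset (Finset (Fin r × ι)) × (Fin r → Finset ι) → ZMod 2),
  (∀ x ∈ D.sT, b x ≠ 0 → D.TInc.gr x = Module.finrank ℝ W + 1) →
  (∀ y ∈ D.sT, D.TInc.bd D.sT b y = D.T y) →
  ∃ bt : Finset (Finset (Fin r × ι) ⊕ (Fin r × ι)) → ZMod 2,
    (∀ S, bt S ≠ 0 → S.card = Module.finrank ℝ W + 1 ∧
      ∃ x ∈ D.sT, (S : Set (Finset (Fin r × ι) ⊕ (Fin r × ι))) ⊆ D.supp x) ∧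
    ∀ R, ∑ S, bt S * (Inc.simp (Finset (Fin r × ι) ⊕ (Fin r × ι))).d S R =
      if ∃ z ∈ D.CH, z.card = Module.finrank ℝ W ∧ R = z.image Sum.inl then 1 else 0

open scoped Classical in
/-- DEG: some generic direction is covered by exactly one complete flag -/
def Stmt_Deg : Prop := ∀ (ι E W : Type) [Fintype ι] [AddCommGroup E] [Module ℝ E]
  [FiniteDimensional ℝ E] [NormedAddCommGroup W] [InnerProductSpace ℝ W] [FiniteDimensional ℝ W]
  (r : ℕ) (D : Sark ι E W r), ∃ θ : W, Gen D.vec θ ∧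
  (D.CH.filter fun z => z.card = Module.finrank ℝ W ∧
    Pos D.vec ((z.image Sum.inl : Finset (Finset (Fin r × ι) ⊕ (Fin r × ι))) :
      Set (Finset (Fin r × ι) ⊕ (Fin r × ι))) θ).card = 1

/-- CORE -/
def Stmt_Core : Prop := ∀ (ι E W : Type) [Fintype ι] [AddCommGroup E] [Module ℝ E]
  [FiniteDimensional ℝ E] [NormedAddCommGroup W] [InnerProductSpace ℝ W] [FiniteDimensional ℝ W]
  (r : ℕ) (D : Sark ι E W r), ¬ D.NoSol

/-- S: the linear form of the theorem -/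
def Stmt_S : Prop := ∀ (ι E W : Type) [Fintype ι] [AddCommGroup E] [Module ℝ E]
  [FiniteDimensional ℝ E] [AddCommGroup W] [Module ℝ W] [FiniteDimensional ℝ W] (r : ℕ)
  (v : ι → E) (Φ : Fin r → (E →ₗ[ℝ] W)), 0 < r → Submodule.span ℝ (Set.range v) = ⊤ →
  (∃ ψ : Module.Dual ℝ E, ∀ j, 0 < ψ (v j)) → (∀ x, ∑ i, Φ i x = 0) →
  Module.finrank ℝ W < Module.finrank ℝ E →
  ∃ F ∈ Tup v (fun _ : Fin r => univ) ∅,
    ¬ Good (fun k : Fin r × ι => Φ k.1 (v k.2)) {k | k.2 ∈ F k.1}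

/-- `F` is a face of the polytope `P`: nonempty, `P` itself or the intersection of `P` with a
supporting hyperplane -/
def PolyFace {n : ℕ} (P F : Set (EuclideanSpace ℝ (Fin n))) : Prop :=
  F.Nonempty ∧ (F = P ∨ ∃ (l : EuclideanSpace ℝ (Fin n) →ₗ[ℝ] ℝ) (c : ℝ), l ≠ 0 ∧
    (∀ x ∈ P, l x ≤ c) ∧ F = {x | x ∈ P ∧ l x = c})

/-- FINAL: the theorem -/
def Stmt_Final : Prop := ∀ (d r m n : ℕ), 1 ≤ d → 2 ≤ r → (d + 1) * (r - 1) ≤ m →
  ∀ V : Set (EuclideanSpace ℝ (Fin n)), V.Finite →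
  Module.finrank ℝ (vectorSpan ℝ (convexHull ℝ V)) = m →
  ∀ f : EuclideanSpace ℝ (Fin n) →ᵃ[ℝ] EuclideanSpace ℝ (Fin d),
  ∃ F : Fin r → Set (EuclideanSpace ℝ (Fin n)), (∀ i, PolyFace (convexHull ℝ V) (F i)) ∧
    (∀ i j, i ≠ j → Disjoint (F i) (F j)) ∧ (⋂ i, f '' F i).Nonempty

end Main

end Pool.Agent.TP
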