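import Mathlib
import Pool.Agent.Work.MP_c51d14_co.Interface

/-!
# Elementary lemmas on faces
-/

namespace Pool.Agent.TP

open Finset

section
variable {ι E : Type} [AddCommGroup E] [Module ℝ E]

/-! ### spans and ranks -/

/-- a functional vanishing on the vectors with labels in `S` vanishes on their span -/
theorem dual_zero_of_span {v : ι → E} {S : Set ι} {ψ : Module.Dual ℝ E} (h : ∀ i ∈ S, ψ (v i) = 0)
    {x : E} (hx : x ∈ Submodule.span ℝ (v '' S)) : ψ x = 0 := by
  have : Submodule.span ℝ (v '' S) ≤ LinearMap.ker ψ := by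
    rw [Submodule.span_le]
    rintro _ ⟨i, hi, rfl⟩
    exact h i hi
  exact this hx

variable [FiniteDimensional ℝ E]

theorem rk_mono (v : ι → E) {S T : Set ι} (h : S ⊆ T) : rk v S ≤ rk v T :=
  Submodule.finrank_mono (Submodule.span_mono (Set.image_mono h))

theorem rk_le (v : ι → E) (S : Set ι) : rk v S ≤ Module.finrank ℝ E := Submodule.finrank_le _

@[simp] theorem rk_empty (v : ι → E) : rk v (∅ : Set ι) = 0 := by
  simp [rk]

/-- submodularity -/
theorem rk_union_add_inter (v : ι → E) (S T : Set ι) :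
    rk v (S ∪ T) + rk v (S ∩ T) ≤ rk v S + rk v T := by
  unfold rk
  rw [Set.image_union, Submodule.span_union,
    ← Submodule.finrank_sup_add_finrank_inf_eq (Submodule.span ℝ (v '' S))
      (Submodule.span ℝ (v '' T))]
  gcongr
  exact Submodule.finrank_mono (le_inf (Submodule.span_mono (Set.image_mono Set.inter_subset_left))
    (Submodule.span_mono (Set.image_mono Set.inter_subset_right)))

/-- the rank grows when a new vector is added -/
theorem rk_lt_of_not_mem (v : ι → E) {S T : Set ι} (h : S ⊆ T) {j : ι} (hj : j ∈ T)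
    (hs : v j ∉ Submodule.span ℝ (v '' S)) : rk v S < rk v T := by
  refine Submodule.finrank_lt_finrank_of_lt (lt_of_le_of_ne
    (Submodule.span_mono (Set.image_mono h)) ?_)
  intro he
  exact hs (he ▸ Submodule.subset_span ⟨j, hj, rfl⟩)

theorem span_eq_of_rk_le (v : ι → E) {S T : Set ι} (h : S ⊆ T) (hr : rk v T ≤ rk v S) :
    Submodule.span ℝ (v '' S) = Submodule.span ℝ (v '' T) :=
  Submodule.eq_of_le_of_finrank_le (Submodule.span_mono (Set.image_mono h)) hr

theorem rk_eq_finrank_iff (v : ι → E) (S : Set ι) :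
    rk v S = Module.finrank ℝ E ↔ Submodule.span ℝ (v '' S) = ⊤ := by
  constructor
  · intro h
    exact Submodule.eq_top_of_finrank_eq h
  · intro h
    rw [rk, h, finrank_top]

end

section
variable {ι E : Type} [AddCommGroup E] [Module ℝ E]

/-! ### faces -/

theorem IsFace.univ_face [Fintype ι] (v : ι → E) : IsFace v (univ : Finset ι) :=
  ⟨0, fun _ => le_rfl, fun _ => by simp⟩

/-- `∅` is a face of a pointed configuration -/
theorem IsFace.empty_of_pos {v : ι → E} {ψ : Module.Dual ℝ E} (h : ∀ i, 0 < ψ (v i)) :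
    IsFace v (∅ : Finset ι) :=
  ⟨ψ, fun i => (h i).le, fun i => by simp [(h i).ne']⟩

theorem IsFace.exists_pos {v : ι → E} (h : IsFace v (∅ : Finset ι)) :
    ∃ ψ : Module.Dual ℝ E, ∀ i, 0 < ψ (v i) := by
  obtain ⟨ψ, h0, h1⟩ := h
  refine ⟨ψ, fun i => lt_of_le_of_ne (h0 i) fun h2 => ?_⟩
  simpa using (h1 i).2 h2.symm

open scoped Classical in
theorem IsFace.inter {v : ι → E} {F G : Finset ι} (hF : IsFace v F) (hG : IsFace v G) :
    IsFace v (F ∩ G) := by
  obtain ⟨f, f0, f1⟩ := hF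
  obtain ⟨g, g0, g1⟩ := hG
  refine ⟨f + g, fun i => add_nonneg (f0 i) (g0 i), fun i => ?_⟩
  rw [Finset.mem_inter, f1, g1, LinearMap.add_apply]
  constructor
  · rintro ⟨h1, h2⟩
    rw [h1, h2, add_zero]
  · intro h
    have h1 := f0 i
    have h2 := g0 i
    constructor <;> linarith

open scoped Classical in
/-- relative faces: the zero set in the face `Z` of a functional nonnegative on `Z` is a face -/
theorem IsFace.rel [Fintype ι] {v : ι → E} {Z : Finset ι} (hZ : IsFace v Z) (g : Module.Dual ℝ E)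
    (hg : ∀ i ∈ Z, 0 ≤ g (v i)) : IsFace v (Z.filter fun i => g (v i) = 0) := by
  obtain ⟨f, f0, f1⟩ := hZ
  -- choose a large multiple
  obtain ⟨M, hM⟩ : ∃ M : ℝ, ∀ i, i ∉ Z → 0 < M * f (v i) + g (v i) := by
    have h1 : ∀ i, ∃ M : ℝ, 0 ≤ M ∧ (i ∉ Z → ∀ M', M ≤ M' → 0 < M' * f (v i) + g (v i)) := by
      intro i
      by_cases hi : i ∈ Z
      · exact ⟨0, le_rfl, fun h => absurd hi h⟩
      · have hp : 0 < f (v i) := lt_of_le_of_ne (f0 i) fun h => hi ((f1 i).2 h.symm)
        refine ⟨(|g (v i)| + 1) / f (v i), by positivity, fun _ M' hM' => ?_⟩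
        have h2 : |g (v i)| + 1 ≤ M' * f (v i) := by
          rw [div_le_iff₀ hp] at hM'
          exact hM'
        have h3 := neg_abs_le (g (v i))
        linarith
    choose M hM0 hM1 using h1
    refine ⟨∑ i, M i, fun i hi => hM1 i hi _ ?_⟩
    exact Finset.single_le_sum (f := M) (fun j _ => hM0 j) (Finset.mem_univ i)
  refine ⟨M • f + g, fun i => ?_, fun i => ?_⟩
  · by_cases hi : i ∈ Z
    · simp only [LinearMap.add_apply, LinearMap.smul_apply, smul_eq_mul, (f1 i).1 hi, mul_zero,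
        zero_add]
      exact hg i hi
    · exact (hM i hi).le
  · by_cases hi : i ∈ Z
    · simp only [Finset.mem_filter, hi, true_and, LinearMap.add_apply, LinearMap.smul_apply,
        smul_eq_mul, (f1 i).1 hi, mul_zero, zero_add]
    · simp only [Finset.mem_filter, hi, false_and, LinearMap.add_apply, LinearMap.smul_apply,
        smul_eq_mul, false_iff]
      exact (hM i hi).ne'

/-- a label whose vector lies in the span of a face belongs to the face -/
theorem IsFace.mem_of_span {v : ι → E} {F : Finset ι} (hF : IsFace v F) {j : ι}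
    (h : v j ∈ Submodule.span ℝ (v '' (F : Set ι))) : j ∈ F := by
  obtain ⟨f, f0, f1⟩ := hF
  exact (f1 j).2 (dual_zero_of_span (fun i hi => (f1 i).1 hi) h)

variable [FiniteDimensional ℝ E]

/-- strict inclusion of a face gives strict inequality of the ranks -/
theorem IsFace.rk_lt {v : ι → E} {F : Finset ι} {T : Set ι} (hF : IsFace v F)
    (h : (F : Set ι) ⊆ T) {j : ι} (hj : j ∈ T) (hjF : j ∉ F) : rk v (F : Set ι) < rk v T :=
  rk_lt_of_not_mem v h hj fun h1 => hjF (hF.mem_of_span h1)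

theorem IsFace.rk_lt_of_ssubset {v : ι → E} {F G : Finset ι} (hF : IsFace v F) (h : F ⊂ G) :
    rk v (F : Set ι) < rk v (G : Set ι) := by
  obtain ⟨h1, h2⟩ := Finset.ssubset_iff_subset_ne.1 h
  obtain ⟨j, hj, hjF⟩ := Finset.exists_of_ssubset h
  exact hF.rk_lt (Finset.coe_subset.2 h1) (Finset.mem_coe.2 hj) hjF

theorem IsFace.eq_of_rk_le {v : ι → E} {F G : Finset ι} (hF : IsFace v F) (h : F ⊆ G)
    (hr : rk v (G : Set ι) ≤ rk v (F : Set ι)) : F = G := by
  by_contra hne
  have := hF.rk_lt_of_ssubset (Finset.ssubset_iff_subset_ne.2 ⟨h, hne⟩)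
  omega

end

/-! ### closure -/

section
variable {ι E : Type} [AddCommGroup E] [Module ℝ E] [Fintype ι]

theorem mem_cl {v : ι → E} {S : Set ι} {j : ι} :
    j ∈ cl v S ↔ ∀ F : Finset ι, IsFace v F → S ⊆ (F : Set ι) → j ∈ F := by
  simp [cl]

theorem subset_cl (v : ι → E) (S : Set ι) : S ⊆ (cl v S : Set ι) := by
  intro j hj
  rw [Finset.mem_coe, mem_cl]
  exact fun F _ h => h hj

theorem cl_subset {v : ι → E} {S : Set ι} {F : Finset ι} (hF : IsFace v F)
    (h : S ⊆ (F : Set ι)) : cl v S ⊆ F := fun _ hj => mem_cl.1 hj F hF h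

open scoped Classical in
theorem isFace_cl (v : ι → E) (S : Set ι) : IsFace v (cl v S) := by
  -- the sum of the functionals of all faces containing `S`
  let A : Finset (Finset ι) := univ.filter fun F => IsFace v F ∧ S ⊆ (F : Set ι)
  have hA : ∀ F : Finset ι, ∃ ψ : Module.Dual ℝ E, F ∈ A →
      (∀ i, 0 ≤ ψ (v i)) ∧ ∀ i, i ∈ F ↔ ψ (v i) = 0 := by
    intro F
    by_cases h : F ∈ A
    · obtain ⟨ψ, h0, h1⟩ := (Finset.mem_filter.1 h).2.1
      exact ⟨ψ, fun _ => ⟨h0, h1⟩⟩
    · exact ⟨0, fun h' => absurd h' h⟩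
  choose ψ hψ using hA
  have hs : ∀ i, (∑ F ∈ A, ψ F) (v i) = ∑ F ∈ A, ψ F (v i) := by
    intro i
    rw [LinearMap.sum_apply]
  refine ⟨∑ F ∈ A, ψ F, fun i => ?_, fun i => ?_⟩
  · rw [hs]
    exact Finset.sum_nonneg fun F hF => (hψ F hF).1 i
  · rw [hs, Finset.sum_eq_zero_iff_of_nonneg fun F hF => (hψ F hF).1 i, mem_cl]
    constructor
    · intro h F hF
      have hF' := (Finset.mem_filter.1 hF).2
      exact ((hψ F hF).2 i).1 (h F hF'.1 hF'.2)
    · intro h F hF1 hF2
      have hF : F ∈ A := Finset.mem_filter.2 ⟨Finset.mem_univ _, hF1, hF2⟩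
      exact ((hψ F hF).2 i).2 (h F hF)

/-! ### membership in the families -/

theorem mem_Fam {v : ι → E} {F₀ Z : Finset ι} {K : Set ι} {G : Finset ι} :
    G ∈ Fam v F₀ Z K ↔ IsFace v G ∧ F₀ ⊆ G ∧ G ⊆ Z ∧ ∀ j ∈ G, j ∈ K → j ∈ F₀ := by
  simp [Fam]

theorem mem_Fam_empty {v : ι → E} {F₀ Z : Finset ι} {G : Finset ι} :
    G ∈ Fam v F₀ Z ∅ ↔ IsFace v G ∧ F₀ ⊆ G ∧ G ⊆ Z := by
  simp [Fam]

theorem mem_Tup {v : ι → E} {s : ℕ} {Z : Fin s → Finset ι} {K : Set ι} {F : Fin s → Finset ι} :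
    F ∈ Tup v Z K ↔ (∀ i, IsFace v (F i) ∧ F i ⊆ Z i ∧ ∀ j ∈ F i, j ∉ K) ∧
      ∀ i j, i ≠ j → Disjoint (F i) (F j) := by
  simp [Tup]

end

section
variable {ι E : Type} [AddCommGroup E] [Module ℝ E]

theorem fInc_d {v : ι → E} {F G : Finset ι} :
    (fInc v).d F G ≠ 0 ↔ G ⊆ F ∧ rk v (G : Set ι) + 1 = rk v (F : Set ι) := by
  simp [fInc]

theorem fInc_d_one {v : ι → E} {F G : Finset ι} (h : G ⊆ F)
    (h' : rk v (G : Set ι) + 1 = rk v (F : Set ι)) : (fInc v).d F G = 1 := if_pos ⟨h, h'⟩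

theorem fInc_gr {v : ι → E} {F : Finset ι} : (fInc v).gr F = rk v (F : Set ι) := rfl

open scoped Classical in
theorem pi_d_ne {X : Type} (A : Inc X) {s : ℕ} {x y : Fin s → X} (h : (A.pi s).d x y ≠ 0) :
    ∃ i, (∀ j, j ≠ i → x j = y j) ∧ A.d (x i) (y i) ≠ 0 := by
  have h' : ∑ i, (if (∀ j, j ≠ i → x j = y j) then A.d (x i) (y i) else 0) ≠ 0 := h
  obtain ⟨i, -, hi⟩ := Finset.exists_ne_zero_of_sum_ne_zero h'
  by_cases h1 : ∀ j, j ≠ i → x j = y j
  · rw [if_pos h1] at hi
    exact ⟨i, h1, hi⟩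
  · rw [if_neg h1] at hi
    exact absurd rfl hi

/-- in the power of the face complex the boundary goes to smaller tuples -/
theorem pi_fInc_d_le {v : ι → E} {s : ℕ} {x y : Fin s → Finset ι}
    (h : ((fInc v).pi s).d x y ≠ 0) (i : Fin s) : y i ⊆ x i := by
  obtain ⟨k, hk, hd⟩ := pi_d_ne _ h
  by_cases hi : i = k
  · rw [hi]
    exact (fInc_d.1 hd).1
  · rw [hk i hi]

open scoped Classical in
theorem prod_d_ne {X Y : Type} (A : Inc X) (B : Inc Y) {x y : X × Y}
    (h : (A.prod B).d x y ≠ 0) :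
    (x.2 = y.2 ∧ A.d x.1 y.1 ≠ 0) ∨ (x.1 = y.1 ∧ B.d x.2 y.2 ≠ 0) := by
  by_contra hc
  push Not at hc
  apply h
  have h1 : (if x.2 = y.2 then A.d x.1 y.1 else 0) = 0 := by
    split_ifs with h2
    · exact hc.1 h2
    · rfl
  have h2 : (if x.1 = y.1 then B.d x.2 y.2 else 0) = 0 := by
    split_ifs with h2
    · exact hc.2 h2
    · rfl
  show _ + _ = _
  rw [h1, h2, add_zero]

end

/-! ### Pos, Good, Gen -/

section
variable {ι E : Type} [AddCommGroup E] [Module ℝ E] [Fintype ι]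

theorem Pos.mono {v : ι → E} {S T : Set ι} {θ : E} (h : Pos v S θ) (hST : S ⊆ T) : Pos v T θ := by
  obtain ⟨β, h1, h2, h3⟩ := h
  exact ⟨β, h1, fun x hx => hST (h2 x hx), h3⟩

theorem Good.mono {v : ι → E} {S T : Set ι} (h : Good v T) (hST : S ⊆ T) : Good v S :=
  fun β h1 h2 h3 => h β h1 (fun x hx => hST (h2 x hx)) h3

/-- a nonnegative combination lies in the span of its support -/
theorem sum_mem_span_support {v : ι → E} {β : ι → ℝ} :
    ∑ x, β x • v x ∈ Submodule.span ℝ (v '' {x | β x ≠ 0}) := by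
  refine Submodule.sum_mem _ fun x _ => ?_
  by_cases h : β x = 0
  · rw [h, zero_smul]; exact Submodule.zero_mem _
  · exact Submodule.smul_mem _ _ (Submodule.subset_span ⟨x, h, rfl⟩)

theorem Pos.mem_span {v : ι → E} {S : Set ι} {θ : E} (h : Pos v S θ) :
    θ ∈ Submodule.span ℝ (v '' S) := by
  obtain ⟨β, h1, h2, h3⟩ := h
  rw [h3]
  exact Submodule.span_mono (Set.image_mono fun x hx => h2 x hx) sum_mem_span_support

theorem Gen.span_of_pos {v : ι → E} {S : Set ι} {θ : E} (hg : Gen v θ) (h : Pos v S θ) :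
    Submodule.span ℝ (v '' S) = ⊤ := hg S h.mem_span

/-- the support of a representation of a generic point spans -/
theorem Gen.span_support {v : ι → E} {θ : E} (hg : Gen v θ) {β : ι → ℝ}
    (h : θ = ∑ x, β x • v x) : Submodule.span ℝ (v '' {x | β x ≠ 0}) = ⊤ :=
  hg _ (h ▸ sum_mem_span_support)

end

end Pool.Agent.TP
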