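import Mathlib
import Pool.Agent.Work.MP_c51d14_co.Basic

/-!
# Elementary facts about the data `Sark`
-/

set_option linter.unusedSectionVars false

namespace Pool.Agent.TP

open Finset

/-- positions of a subfamily: `Pos` for a composed family -/
theorem Pos.of_comp {κ ι E : Type} [Fintype κ] [Fintype ι] [AddCommGroup E] [Module ℝ E]
    {v : ι → E} {p : κ → ι} {S : Set κ} {x : E} (h : Pos (fun k => v (p k)) S x) :
    Pos v (p '' S) x := by
  classical
  obtain ⟨β, h1, h2, h3⟩ := h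
  refine ⟨fun j => ∑ k ∈ univ.filter (fun k => p k = j), β k,
    fun j => Finset.sum_nonneg fun k _ => h1 k, fun j hj => ?_, ?_⟩
  · obtain ⟨k, hk, hk'⟩ := Finset.exists_ne_zero_of_sum_ne_zero hj
    exact ⟨k, h2 k hk', (Finset.mem_filter.1 hk).2⟩
  · rw [h3]
    rw [← Finset.sum_fiberwise (s := univ) (g := p)]
    refine Finset.sum_congr rfl fun j _ => ?_
    rw [Finset.sum_smul]
    refine Finset.sum_congr rfl fun k hk => ?_
    show β k • v (p k) = β k • v j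
    rw [(Finset.mem_filter.1 hk).2]

/-- `Gen` for a composed family -/
theorem Gen.comp {κ ι E : Type} [AddCommGroup E] [Module ℝ E]
    {v : ι → E} {x : E} (h : Gen v x) (p : κ → ι) : Gen (fun k => v (p k)) x := by
  intro S hS
  have he : (fun k => v (p k)) '' S = v '' (p '' S) := by
    rw [Set.image_image]
  rw [he] at hS ⊢
  exact h _ hS

namespace Sark

variable {ι E W : Type} [Fintype ι] [AddCommGroup E] [Module ℝ E] [FiniteDimensional ℝ E]
  [NormedAddCommGroup W] [InnerProductSpace ℝ W] [FiniteDimensional ℝ W] {r : ℕ}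
  (D : Sark ι E W r)

open scoped RealInnerProductSpace

/-! ### functionals on `W × E` -/

/-- the functional `(w, x) ↦ ⟪u, w⟫ + ψ x` -/
noncomputable def fn (u : W) (ψ : Module.Dual ℝ E) : Module.Dual ℝ (W × E) :=
  LinearMap.coprod (innerₛₗ ℝ u) ψ

theorem fn_apply (u : W) (ψ : Module.Dual ℝ E) (w : W) (x : E) : fn u ψ (w, x) = ⟪u, w⟫ + ψ x := by
  simp [fn]

theorem fn_c (u : W) (ψ : Module.Dual ℝ E) (k : Fin r × ι) : fn u ψ (D.c k) = D.val u ψ k := by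
  rw [Sark.c, fn_apply, Sark.val, inner_neg_right]
  ring

/-- every functional on `W × E` has this form -/
theorem exists_fn (g : Module.Dual ℝ (W × E)) : ∃ (u : W) (ψ : Module.Dual ℝ E), g = fn u ψ := by
  let f : W →ₗ[ℝ] ℝ := g ∘ₗ LinearMap.inl ℝ W E
  refine ⟨(InnerProductSpace.toDual ℝ W).symm (LinearMap.toContinuousLinearMap f),
    g ∘ₗ LinearMap.inr ℝ W E, ?_⟩
  refine LinearMap.ext fun p => ?_
  obtain ⟨w, x⟩ := p
  rw [fn_apply, InnerProductSpace.toDual_symm_apply]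
  have : (w, x) = LinearMap.inl ℝ W E w + LinearMap.inr ℝ W E x := by simp
  rw [this, map_add]
  rfl

theorem isFace_c_iff {Z : Finset (Fin r × ι)} :
    IsFace D.c Z ↔ ∃ (u : W) (ψ : Module.Dual ℝ E), D.Wit Z u ψ := by
  constructor
  · rintro ⟨g, h0, h1⟩
    obtain ⟨u, ψ, rfl⟩ := exists_fn g
    refine ⟨u, ψ, fun k => ?_⟩
    rw [← D.fn_c]
    exact ⟨h0 k, h1 k⟩
  · rintro ⟨u, ψ, h⟩
    refine ⟨fn u ψ, fun k => ?_, fun k => ?_⟩
    · rw [D.fn_c]; exact (h k).1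
    · rw [D.fn_c]; exact (h k).2

open scoped Classical in
theorem wit_spec {Z : Finset (Fin r × ι)} (hZ : IsFace D.c Z) :
    D.Wit Z (D.wit Z).1 (D.wit Z).2 := by
  obtain ⟨u, ψ, h⟩ := D.isFace_c_iff.1 hZ
  have h' : ∃ p : W × Module.Dual ℝ E, D.Wit Z p.1 p.2 := ⟨(u, ψ), h⟩
  rw [Sark.wit, dif_pos h']
  exact h'.choose_spec

/-- the zero set of a nonnegative `val` is a face of `D.c` -/
theorem isFace_zero {u : W} {ψ : Module.Dual ℝ E} (h : ∀ k, 0 ≤ D.val u ψ k)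
    {Z : Finset (Fin r × ι)} (hZ : ∀ k, k ∈ Z ↔ D.val u ψ k = 0) : IsFace D.c Z :=
  D.isFace_c_iff.2 ⟨u, ψ, fun k => ⟨h k, hZ k⟩⟩

/-! ### the value is linear in `(u, ψ)` -/

theorem val_zero (k : Fin r × ι) : D.val 0 0 k = 0 := by simp [Sark.val]

theorem val_add (u u' : W) (ψ ψ' : Module.Dual ℝ E) (k : Fin r × ι) :
    D.val (u + u') (ψ + ψ') k = D.val u ψ k + D.val u' ψ' k := by
  simp only [Sark.val, LinearMap.add_apply, inner_add_left]
  ring

theorem val_smul (t : ℝ) (u : W) (ψ : Module.Dual ℝ E) (k : Fin r × ι) :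
    D.val (t • u) (t • ψ) k = t * D.val u ψ k := by
  simp only [Sark.val, LinearMap.smul_apply, smul_eq_mul, real_inner_smul_left]
  ring

theorem val_sum {α : Type} (s : Finset α) (t : α → ℝ) (u : α → W) (ψ : α → Module.Dual ℝ E)
    (k : Fin r × ι) :
    D.val (∑ a ∈ s, t a • u a) (∑ a ∈ s, t a • ψ a) k = ∑ a ∈ s, t a * D.val (u a) (ψ a) k := by
  classical
  induction s using Finset.induction_on with
  | empty => simp [val_zero]
  | insert a s ha ih =>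
    rw [Finset.sum_insert ha, Finset.sum_insert ha, Finset.sum_insert ha, val_add, val_smul, ih]

theorem sum_val (u : W) (ψ : Module.Dual ℝ E) (j : ι) :
    ∑ i, D.val u ψ (i, j) = r * ψ (D.v j) := by
  simp only [Sark.val, Finset.sum_sub_distrib, ← inner_sum, D.sum_zero, inner_zero_right, sub_zero,
    Finset.sum_const, Finset.card_univ, Fintype.card_fin, nsmul_eq_mul]

/-- `ψ` is nonnegative if `val u ψ` is -/
theorem psi_nonneg {u : W} {ψ : Module.Dual ℝ E} (h : ∀ k, 0 ≤ D.val u ψ k) (j : ι) :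
    0 ≤ ψ (D.v j) := by
  have h1 := D.sum_val u ψ j
  have h2 : 0 ≤ ∑ i, D.val u ψ (i, j) := Finset.sum_nonneg fun i _ => h (i, j)
  have h3 : (0 : ℝ) < r := by exact_mod_cast D.r_pos
  rw [h1] at h2
  exact nonneg_of_mul_nonneg_right h2 h3

/-- a functional vanishing on all `v j` is zero -/
theorem psi_eq_zero {ψ : Module.Dual ℝ E} (h : ∀ j, ψ (D.v j) = 0) : ψ = 0 := by
  refine LinearMap.ext fun x => ?_
  have hx : x ∈ Submodule.span ℝ (D.v '' Set.univ) := by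
    rw [Set.image_univ, D.span_v]; trivial
  exact dual_zero_of_span (fun i _ => h i) hx

/-- a functional vanishing on vectors spanning `E` is zero -/
theorem psi_eq_zero_of_span {κ : Type} {a : κ → E} {S : Set κ}
    (hS : Submodule.span ℝ (a '' S) = ⊤) {ψ : Module.Dual ℝ E} (h : ∀ k ∈ S, ψ (a k) = 0) :
    ψ = 0 := by
  refine LinearMap.ext fun x => ?_
  have hx : x ∈ Submodule.span ℝ (a '' S) := by rw [hS]; trivial
  exact dual_zero_of_span h hx

theorem val_eq_zero_imp {u : W} {ψ : Module.Dual ℝ E} (h : ∀ k, D.val u ψ k = 0) :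
    u = 0 ∧ ψ = 0 := by
  have h1 : ψ = 0 := by
    refine D.psi_eq_zero fun j => ?_
    have h2 := D.sum_val u ψ j
    have h3 : (0 : ℝ) < r := by exact_mod_cast D.r_pos
    rw [Finset.sum_eq_zero fun i _ => h (i, j)] at h2
    rcases mul_eq_zero.1 h2.symm with h4 | h4
    · exact absurd h4 h3.ne'
    · exact h4
  refine ⟨?_, h1⟩
  have h2 : ∀ k : Fin r × ι, ⟪u, D.Φ k.1 (D.v k.2)⟫ = 0 := by
    intro k
    have := h k
    rw [Sark.val, h1, LinearMap.zero_apply, zero_sub, neg_eq_zero] at this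
    exact this
  have h3 : ∀ w : W, ⟪u, w⟫ = 0 := by
    intro w
    have hw : w ∈ Submodule.span ℝ (Set.range fun k : Fin r × ι => D.Φ k.1 (D.v k.2)) := by
      rw [D.span_Φ]; trivial
    have hle : Submodule.span ℝ (Set.range fun k : Fin r × ι => D.Φ k.1 (D.v k.2)) ≤
        LinearMap.ker (innerₛₗ ℝ u) := by
      rw [Submodule.span_le]
      rintro _ ⟨k, rfl⟩
      exact h2 k
    exact hle hw
  exact inner_self_eq_zero.1 (h3 u)

/-! ### slices -/

open scoped Classical in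
/-- the slice of `Z` -/
noncomputable def slice (Z : Finset (Fin r × ι)) (i : Fin r) : Finset ι :=
  univ.filter fun j => (i, j) ∈ Z

theorem mem_slice {Z : Finset (Fin r × ι)} {i : Fin r} {j : ι} : j ∈ slice Z i ↔ (i, j) ∈ Z := by
  simp [slice]

theorem isFace_slice {Z : Finset (Fin r × ι)} (hZ : IsFace D.c Z) (i : Fin r) :
    IsFace D.v (slice Z i) := by
  obtain ⟨u, ψ, h⟩ := D.isFace_c_iff.1 hZ
  refine ⟨ψ - (innerₛₗ ℝ u) ∘ₗ D.Φ i, fun j => ?_, fun j => ?_⟩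
  · exact (h (i, j)).1
  · rw [mem_slice]; exact (h (i, j)).2

theorem isFace_empty : IsFace D.v (∅ : Finset ι) := by
  obtain ⟨ψ, h⟩ := D.pointed
  exact IsFace.empty_of_pos h

/-! ### the set `N` -/

theorem mem_N {Z : Finset (Fin r × ι)} :
    Z ∈ D.N ↔ IsFace D.c Z ∧
      Pos (fun k : Fin r × ι => D.v k.2) (Z : Set (Fin r × ι)) D.x₀ := by
  simp [Sark.N]

theorem mem_N_mono {Z Z' : Finset (Fin r × ι)} (h : Z ∈ D.N) (hZ' : IsFace D.c Z')
    (hs : Z ⊆ Z') : Z' ∈ D.N :=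
  D.mem_N.2 ⟨hZ', (D.mem_N.1 h).2.mono (Finset.coe_subset.2 hs)⟩

theorem gen_snd : Gen (fun k : Fin r × ι => D.v k.2) D.x₀ := D.gen.comp _

theorem span_of_pos {S : Set (Fin r × ι)} (h : Pos (fun k : Fin r × ι => D.v k.2) S D.x₀) :
    Submodule.span ℝ ((fun k : Fin r × ι => D.v k.2) '' S) = ⊤ := D.gen_snd.span_of_pos h

theorem pos_univ : Pos (fun k : Fin r × ι => D.v k.2) Set.univ D.x₀ := by
  classical
  obtain ⟨β, h1, h2, h3⟩ := D.pos
  let i₀ : Fin r := ⟨0, D.r_pos⟩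
  refine ⟨fun k => if k.1 = i₀ then β k.2 else 0, fun k => ?_, fun _ _ => trivial, ?_⟩
  · dsimp only
    split_ifs
    · exact h1 _
    · exact le_rfl
  · rw [h3, Fintype.sum_prod_type]
    rw [Finset.sum_eq_single i₀]
    · simp
    · intro i _ hi
      simp [hi]
    · intro h
      exact absurd (Finset.mem_univ _) h

theorem univ_mem_N : (univ : Finset (Fin r × ι)) ∈ D.N := by
  refine D.mem_N.2 ⟨IsFace.univ_face _, ?_⟩
  rw [Finset.coe_univ]
  exact D.pos_univ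

/-- the span of `c` on a set projects onto the span of the `v` -/
theorem map_snd_span_c (S : Set (Fin r × ι)) :
    (Submodule.span ℝ (D.c '' S)).map (LinearMap.snd ℝ W E) =
      Submodule.span ℝ ((fun k : Fin r × ι => D.v k.2) '' S) := by
  rw [Submodule.map_span, Set.image_image]
  rfl

theorem finrank_le_rk_c {Z : Finset (Fin r × ι)} (h : Z ∈ D.N) :
    Module.finrank ℝ E ≤ rk D.c (Z : Set (Fin r × ι)) := by
  have h1 := D.span_of_pos (D.mem_N.1 h).2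
  have h2 := D.map_snd_span_c (Z : Set (Fin r × ι))
  rw [h1] at h2
  have h3 := Submodule.finrank_map_le (LinearMap.snd ℝ W E)
    (Submodule.span ℝ (D.c '' (Z : Set (Fin r × ι))))
  rw [h2, finrank_top] at h3
  exact h3

theorem rk_c_univ : rk D.c ((univ : Finset (Fin r × ι)) : Set (Fin r × ι)) =
    Module.finrank ℝ W + Module.finrank ℝ E := by
  have h : Submodule.span ℝ (D.c '' ((univ : Finset (Fin r × ι)) : Set (Fin r × ι))) = ⊤ := by
    by_contra hne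
    obtain ⟨g, hg0, hg⟩ := Submodule.exists_le_ker_of_lt_top _ (lt_top_iff_ne_top.2 hne)
    obtain ⟨u, ψ, rfl⟩ := exists_fn g
    have h1 : ∀ k, D.val u ψ k = 0 := by
      intro k
      rw [← D.fn_c]
      exact hg (Submodule.subset_span ⟨k, by simp, rfl⟩)
    obtain ⟨h2, h3⟩ := D.val_eq_zero_imp h1
    apply hg0
    rw [h2, h3]
    refine LinearMap.ext fun p => ?_
    rw [fn_apply]
    simp
  rw [rk, h, finrank_top, Module.finrank_prod]

/-- the union of the slices of a member of `N` spans `E` -/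
theorem rk_un_slice {Z : Finset (Fin r × ι)} (h : Z ∈ D.N) :
    rk D.v (un fun i => slice Z i) = Module.finrank ℝ E := by
  rw [rk_eq_finrank_iff]
  have h1 := D.span_of_pos (D.mem_N.1 h).2
  rw [eq_top_iff, ← h1]
  refine Submodule.span_mono ?_
  rintro _ ⟨k, hk, rfl⟩
  refine ⟨k.2, ⟨k.1, ?_⟩, rfl⟩
  show k.2 ∈ slice Z k.1
  rw [mem_slice]
  exact hk

/-- strict inclusion in `N` gives strict inequality of ranks -/
theorem rk_c_lt {Z Z' : Finset (Fin r × ι)} (h : IsFace D.c Z) (hs : Z ⊂ Z') :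
    rk D.c (Z : Set (Fin r × ι)) < rk D.c (Z' : Set (Fin r × ι)) := h.rk_lt_of_ssubset hs

/-! ### linear programming on the labels -/

/-- LP restricted to a set of labels -/
theorem lp_on (hLP : Stmt_LP) {Z : Finset (Fin r × ι)}
    (hZ : Pos (fun k : Fin r × ι => D.v k.2) (Z : Set (Fin r × ι)) D.x₀) (h : Fin r × ι → ℝ) :
    ∃! ψ : Module.Dual ℝ E, (∀ k ∈ Z, h k ≤ ψ (D.v k.2)) ∧
      Pos (fun k : Fin r × ι => D.v k.2) {k | k ∈ Z ∧ ψ (D.v k.2) = h k} D.x₀ := by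
  classical
  have hpos : ∀ S : Set (Fin r × ι), S ⊆ (Z : Set (Fin r × ι)) →
      (Pos (fun k : Fin r × ι => D.v k.2) S D.x₀ ↔
        Pos (fun k : Z => D.v k.1.2) {k | (k : Fin r × ι) ∈ S} D.x₀) := by
    intro S hS
    constructor
    · rintro ⟨β, h1, h2, h3⟩
      refine ⟨fun k => β k, fun k => h1 k, fun k hk => h2 k hk, ?_⟩
      rw [h3]
      have : ∑ k : Fin r × ι, β k • D.v k.2 = ∑ k ∈ Z, β k • D.v k.2 := by
        symm
        refine Finset.sum_subset (Finset.subset_univ _) fun k _ hk => ?_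
        have : β k = 0 := by
          by_contra hb
          exact hk (hS (h2 k hb))
        rw [this, zero_smul]
      rw [this]
      exact (Finset.sum_coe_sort Z (fun k => β k • D.v k.2)).symm
    · rintro ⟨β, h1, h2, h3⟩
      refine ⟨fun k => if hk : k ∈ Z then β ⟨k, hk⟩ else 0, fun k => ?_, fun k hk => ?_, ?_⟩
      · dsimp only
        split_ifs
        · exact h1 _
        · exact le_rfl
      · dsimp only at hk
        split_ifs at hk with hkZ
        · exact h2 _ hk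
        · exact absurd rfl hk
      · rw [h3]
        have : ∑ k : Fin r × ι, (if hk : k ∈ Z then β ⟨k, hk⟩ else 0) • D.v k.2 =
            ∑ k ∈ Z, (if hk : k ∈ Z then β ⟨k, hk⟩ else 0) • D.v k.2 := by
          symm
          refine Finset.sum_subset (Finset.subset_univ _) fun k _ hk => ?_
          rw [dif_neg hk, zero_smul]
        rw [this, ← Finset.sum_coe_sort Z]
        refine Finset.sum_congr rfl fun k _ => ?_
        rw [dif_pos k.2]
  have hgen : Gen (fun k : Z => D.v k.1.2) D.x₀ := D.gen.comp (fun k : Z => k.1.2)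
  have h1 : Pos (fun k : Z => D.v k.1.2) Set.univ D.x₀ := by
    have := (hpos _ (le_refl (Z : Set (Fin r × ι)))).1 hZ
    exact this.mono (Set.subset_univ _)
  obtain ⟨ψ₀, hψ₀⟩ := D.pointed
  have key := hLP Z E (fun k : Z => D.v k.1.2) (fun k => h k) D.x₀ h1 hgen
    ⟨ψ₀, fun k => hψ₀ _⟩
  have hiff : ∀ ψ : Module.Dual ℝ E, ((∀ k ∈ Z, h k ≤ ψ (D.v k.2)) ∧
      Pos (fun k : Fin r × ι => D.v k.2) {k | k ∈ Z ∧ ψ (D.v k.2) = h k} D.x₀) ↔
      ((∀ k : Z, h k ≤ ψ (D.v k.1.2)) ∧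
        Pos (fun k : Z => D.v k.1.2) {k : Z | ψ (D.v k.1.2) = h k} D.x₀) := by
    intro ψ
    rw [hpos {k | k ∈ Z ∧ ψ (D.v k.2) = h k} (fun k hk => hk.1)]
    have he : {k : Z | (k : Fin r × ι) ∈ {k : Fin r × ι | k ∈ Z ∧ ψ (D.v k.2) = h k}} =
        {k : Z | ψ (D.v k.1.2) = h k} := by
      ext k
      simp
    rw [he]
    constructor
    · rintro ⟨h1, h2⟩
      exact ⟨fun k => h1 k k.2, h2⟩
    · rintro ⟨h1, h2⟩
      exact ⟨fun k hk => h1 ⟨k, hk⟩, h2⟩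
  obtain ⟨ψ, h2, h3⟩ := key
  exact ⟨ψ, (hiff ψ).2 h2, fun ψ' h' => h3 ψ' ((hiff ψ').1 h')⟩

/-- for every `u` there is exactly one `ψ` such that `val u ψ` is nonnegative and its zero set
carries `x₀` -/
theorem lp_val (hLP : Stmt_LP) (u : W) :
    ∃! ψ : Module.Dual ℝ E, (∀ k, 0 ≤ D.val u ψ k) ∧
      Pos (fun k : Fin r × ι => D.v k.2) {k | D.val u ψ k = 0} D.x₀ := by
  obtain ⟨ψ₀, hψ₀⟩ := D.pointed
  have key := hLP (Fin r × ι) E (fun k => D.v k.2) (fun k => ⟪u, D.Φ k.1 (D.v k.2)⟫) D.x₀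
    D.pos_univ D.gen_snd ⟨ψ₀, fun k => hψ₀ _⟩
  have h1 : ∀ (ψ : Module.Dual ℝ E) (k : Fin r × ι),
      0 ≤ D.val u ψ k ↔ ⟪u, D.Φ k.1 (D.v k.2)⟫ ≤ ψ (D.v k.2) := fun ψ k => sub_nonneg
  have h2 : ∀ (ψ : Module.Dual ℝ E) (k : Fin r × ι),
      D.val u ψ k = 0 ↔ ψ (D.v k.2) = ⟪u, D.Φ k.1 (D.v k.2)⟫ := fun ψ k => sub_eq_zero
  simp only [h1, h2]
  exact key

/-- two functionals with the same `u` whose zero sets are in `N` are equal -/
theorem psi_unique (hLP : Stmt_LP) {u : W} {ψ ψ' : Module.Dual ℝ E} {Z Z' : Finset (Fin r × ι)}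
    (hZ : Z ∈ D.N) (hZ' : Z' ∈ D.N) (h : D.Wit Z u ψ) (h' : D.Wit Z' u ψ') : ψ = ψ' := by
  obtain ⟨ψ₀, -, h0⟩ := D.lp_val hLP u
  have e1 : ψ = ψ₀ := by
    refine h0 ψ ⟨fun k => (h k).1, (D.mem_N.1 hZ).2.mono fun k hk => ?_⟩
    exact ((h k).2).1 hk
  have e2 : ψ' = ψ₀ := by
    refine h0 ψ' ⟨fun k => (h' k).1, (D.mem_N.1 hZ').2.mono fun k hk => ?_⟩
    exact ((h' k).2).1 hk
  rw [e1, e2]

/-- if the rank of a member of `N` is larger than `finrank E`, the span of its vectors contains a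
nonzero vector `(w, 0)` -/
theorem exists_w0 {Z : Finset (Fin r × ι)} (hr : Module.finrank ℝ E < rk D.c (Z : Set (Fin r × ι))) :
    ∃ w : W, w ≠ 0 ∧ ((w, 0) : W × E) ∈ Submodule.span ℝ (D.c '' (Z : Set (Fin r × ι))) := by
  set L := Submodule.span ℝ (D.c '' (Z : Set (Fin r × ι))) with hL
  let f : L →ₗ[ℝ] E := (LinearMap.snd ℝ W E) ∘ₗ L.subtype
  have hf : LinearMap.ker f ≠ ⊥ := by
    intro hk
    have := LinearMap.finrank_le_finrank_of_injective (LinearMap.ker_eq_bot.1 hk)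
    exact absurd hr (not_lt.2 this)
  obtain ⟨x, hx, hx0⟩ := (Submodule.ne_bot_iff _).1 hf
  have hx2 : (x : W × E).2 = 0 := hx
  refine ⟨(x : W × E).1, fun h => hx0 ?_, ?_⟩
  · exact Subtype.ext (Prod.ext h hx2)
  · have : ((x : W × E).1, (0 : E)) = (x : W × E) := Prod.ext rfl hx2.symm
    rw [this]
    exact x.2

/-! ### chains and cells -/

theorem mem_CH {z : Finset (Finset (Fin r × ι))} :
    z ∈ D.CH ↔ (∀ Z ∈ z, Z ∈ D.N ∧ Z ≠ univ) ∧ ∀ Z ∈ z, ∀ Z' ∈ z, Z ⊆ Z' ∨ Z' ⊆ Z := by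
  simp [Sark.CH]

theorem mem_CH_mono {z z' : Finset (Finset (Fin r × ι))} (h : z ∈ D.CH) (hs : z' ⊆ z) :
    z' ∈ D.CH := by
  rw [mem_CH] at h ⊢
  exact ⟨fun Z hZ => h.1 Z (hs hZ), fun Z hZ Z' hZ' => h.2 Z (hs hZ) Z' (hs hZ')⟩

theorem empty_mem_CH : (∅ : Finset (Finset (Fin r × ι))) ∈ D.CH := by
  rw [mem_CH]; simp

theorem mem_sT {x : Finset (Finset (Fin r × ι)) × (Fin r → Finset ι)} :
    x ∈ D.sT ↔ x.1 ∈ D.CH ∧ x.2 ∈ Tup D.v (fun _ : Fin r => univ) ∅ ∧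
      ∀ Z ∈ x.1, ∀ i, ∀ j ∈ x.2 i, (i, j) ∈ Z := by
  simp [Sark.sT]

/-- a nonempty chain has a smallest element -/
theorem exists_min {z : Finset (Finset (Fin r × ι))}
    (hc : ∀ Z ∈ z, ∀ Z' ∈ z, Z ⊆ Z' ∨ Z' ⊆ Z) (hz : z.Nonempty) :
    ∃ Z₀ ∈ z, ∀ Z ∈ z, Z₀ ⊆ Z := by
  obtain ⟨Z₀, h0, h1⟩ := z.exists_min_image Finset.card hz
  refine ⟨Z₀, h0, fun Z hZ => ?_⟩
  rcases hc Z₀ h0 Z hZ with h | h
  · exact h
  · rw [Finset.eq_of_subset_of_card_le h (h1 Z hZ)]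

/-- a nonempty chain has a largest element -/
theorem exists_max {z : Finset (Finset (Fin r × ι))}
    (hc : ∀ Z ∈ z, ∀ Z' ∈ z, Z ⊆ Z' ∨ Z' ⊆ Z) (hz : z.Nonempty) :
    ∃ Z₀ ∈ z, ∀ Z ∈ z, Z ⊆ Z₀ := by
  obtain ⟨Z₀, h0, h1⟩ := z.exists_max_image Finset.card hz
  refine ⟨Z₀, h0, fun Z hZ => ?_⟩
  rcases hc Z₀ h0 Z hZ with h | h
  · rw [Finset.eq_of_subset_of_card_le h (h1 Z hZ)]
  · exact h

theorem empty_tup_mem : (fun _ : Fin r => (∅ : Finset ι)) ∈ Tup D.v (fun _ : Fin r => univ) ∅ := by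
  rw [mem_Tup]
  exact ⟨fun i => ⟨D.isFace_empty, Finset.empty_subset _, fun j hj => absurd hj (by simp)⟩,
    fun i j _ => Finset.disjoint_left.2 fun a ha => absurd ha (by simp)⟩

theorem mem_supp {x : Finset (Finset (Fin r × ι)) × (Fin r → Finset ι)}
    {l : Finset (Fin r × ι) ⊕ (Fin r × ι)} :
    l ∈ D.supp x ↔ (∃ Z ∈ x.1, l = Sum.inl Z) ∨ ∃ i, ∃ j ∈ x.2 i, l = Sum.inr (i, j) := Iff.rfl

end Sark

end Pool.Agent.TP
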